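import Mathlib

/-!
# MP_977787_an: special Hadamard operators without a regular choice of the norm-ratio constant

The functions `e (j, n) = 1_(j, j+1] · exp (2 π i n x)` form an orthonormal basis of `L²(ℝ)`. The
operator with `A e (j, n) = e (n, j)` is unitary and has a unimodular kernel, and it fixes the
indicator function of `(0, 1]`.
-/

set_option autoImplicit false

namespace Pool.Agent.Results.MP_977787_an.NoRegularChoice

open MeasureTheory Set Filter Topology
open scoped ENNReal NNReal InnerProductSpace ComplexConjugate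

/-- The Hilbert space `L²(ℝ)`. -/
abbrev L2 : Type := Lp ℂ 2 (volume : Measure ℝ)

/-- The bounded linear operators on `L²(ℝ)`. -/
abbrev Op : Type := L2 →L[ℂ] L2

/-- The value of an operator. -/
noncomputable def ap (A : Op) (f : L2) : L2 := A f

/-- The inner product of `L²(ℝ)`. -/
noncomputable def ip (f g : L2) : ℂ := ⟪f, g⟫_ℂ

/-- Multiplication by a real number. -/
noncomputable def scal (k : ℝ) (f : L2) : L2 := (k : ℂ) • f

/-- `B` is the adjoint of `A`. -/
def IsAdj (A B : Op) : Prop := ∀ f g : L2, ip (ap A f) g = ip f (ap B g)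

/-- The `L^q` norm of an element of `L²(ℝ)`, possibly infinite. -/
noncomputable def nrm (q : ℝ≥0∞) (f : L2) : ℝ≥0∞ := eLpNorm f q volume

/-- The element `f` of `L²(ℝ)` lies in `L^q(ℝ)`. -/
def InLp (q : ℝ≥0∞) (f : L2) : Prop := MemLp f q volume

/-- A special `k`-Hadamard operator on `ℝ` (as an operator on `L²(ℝ)`, with the `L¹ → L^∞` bounds
on the functions of `L²(ℝ)`). -/
structure IsSpecialHadamard (k : ℝ) (A : Op) : Prop where
  one_top : ∀ f : L2, nrm ∞ (ap A f) ≤ nrm 1 f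
  adjoint : ∃ B : Op, IsAdj A B ∧ (∀ f : L2, ap B (ap A f) = scal k f) ∧
    (∀ f : L2, ap A (ap B f) = scal k f) ∧
    ∃ C : ℝ≥0, ∀ f : L2, nrm ∞ (ap B f) ≤ C * nrm 1 f

/-- The norm ratio `F_(p,2)`. -/
noncomputable def ratio (A : Op) (p : ℝ) (f : L2) : ℝ :=
  (nrm (ENNReal.ofReal p) f).toReal * (nrm (ENNReal.ofReal p) (ap A f)).toReal /
    ((nrm 2 f).toReal * (nrm 2 (ap A f)).toReal)

/-- `C` is admissible for `(A, p)`. -/
def Admissible (A : Op) (p C : ℝ) : Prop :=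
  0 < C ∧ ∀ f : L2, f ≠ 0 → InLp (ENNReal.ofReal p) f → InLp (ENNReal.ofReal p) (ap A f) →
    C ≤ ratio A p f

/-- The choice `C` of constants on `(2 - σ, 2]` is as asked for in Q1. -/
structure RegularChoice (A : Op) (σ : ℝ) (C : ℝ → ℝ) : Prop where
  pos : 0 < σ
  le_one : σ ≤ 1
  admissible : ∀ p ∈ Ioc (2 - σ) 2, Admissible A p (C p)
  at_two : C 2 = 1
  tendsto : Tendsto C (𝓝[<] 2) (𝓝 1)
  differentiable : DifferentiableOn ℝ C (Ioo (2 - σ) 2)
  anti : StrictAntiOn C (Ioo (2 - σ) 2)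

/-- The exponentials. -/
noncomputable def ex (n : ℤ) (x : ℝ) : ℂ := Complex.exp (2 * Real.pi * Complex.I * n * x)

lemma ex_cont (n : ℤ) : Continuous (ex n) := by unfold ex; fun_prop

lemma norm_ex (n : ℤ) (x : ℝ) : ‖ex n x‖ = 1 := by
  have : (2 * Real.pi * Complex.I * n * x : ℂ) = ((2 * Real.pi * n * x : ℝ) : ℂ) * Complex.I := by
    push_cast; ring
  rw [ex, this, Complex.norm_exp_ofReal_mul_I]

lemma conj_ex (n : ℤ) (x : ℝ) : conj (ex n x) = ex (-n) x := by
  have h2 : conj (2 : ℂ) = 2 := map_ofNat _ 2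
  rw [ex, ← Complex.exp_conj, ex]
  congr 1
  simp [h2]

lemma ex_mul (n m : ℤ) (x : ℝ) : ex n x * ex m x = ex (n + m) x := by
  rw [ex, ex, ex, ← Complex.exp_add]
  congr 1
  push_cast
  ring

lemma ex_int (n j : ℤ) : ex n j = 1 := by
  rw [ex]
  rw [Complex.exp_eq_one_iff]
  exact ⟨n * j, by push_cast; ring⟩

lemma int_ex (j m : ℤ) : ∫ x in Ioc (j : ℝ) (j + 1), ex m x = if m = 0 then 1 else 0 := by
  rw [← intervalIntegral.integral_of_le (by linarith)]
  split_ifs with h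
  · subst h
    simp [ex]
  · have hc : (2 * Real.pi * Complex.I * m : ℂ) ≠ 0 := by
      have : (m : ℂ) ≠ 0 := by exact_mod_cast h
      have := Real.pi_ne_zero
      simp [*]
    have e : ∀ x : ℝ, ex m x = Complex.exp ((2 * Real.pi * Complex.I * m) * x) := fun x => rfl
    simp only [e]
    rw [integral_exp_mul_complex hc]
    have e1 := ex_int m j
    have e2 := ex_int m (j + 1)
    rw [e] at e1 e2
    push_cast at e1 e2 ⊢
    rw [e1, e2]
    simp

/-- The functions of the basis. -/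
noncomputable def fe (p : ℤ × ℤ) : ℝ → ℂ := (Ioc (p.1 : ℝ) (p.1 + 1)).indicator (ex p.2)

lemma fe_mem (p : ℤ × ℤ) (q : ℝ≥0∞) : MemLp (fe p) q volume := by
  rw [fe, memLp_indicator_iff_restrict measurableSet_Ioc]
  exact MemLp.of_bound (ex_cont _).aestronglyMeasurable 1
    (Eventually.of_forall fun x => (norm_ex _ x).le)

/-- The basis. -/
noncomputable def v (p : ℤ × ℤ) : L2 := (fe_mem p 2).toLp

lemma v_ae (p : ℤ × ℤ) : v p =ᵐ[volume] fe p := (fe_mem p 2).coeFn_toLp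

lemma inner_v (p : ℤ × ℤ) (g : L2) :
    ⟪v p, g⟫_ℂ = ∫ x in Ioc (p.1 : ℝ) (p.1 + 1), ex (-p.2) x * g x := by
  rw [L2.inner_def, ← integral_indicator measurableSet_Ioc]
  refine integral_congr_ae ?_
  filter_upwards [v_ae p] with x hx
  rw [hx, fe]
  by_cases h : x ∈ Ioc (p.1 : ℝ) (p.1 + 1)
  · rw [indicator_of_mem h, indicator_of_mem h, ← conj_ex, RCLike.inner_apply, mul_comm]
  · rw [indicator_of_notMem h, indicator_of_notMem h]
    simp

lemma Ioc_disj {j k : ℤ} {x : ℝ} (h1 : x ∈ Ioc (j : ℝ) (j + 1)) (h2 : x ∈ Ioc (k : ℝ) (k + 1)) :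
    j = k := by
  have a1 : j < k + 1 := by
    have : (j : ℝ) < k + 1 := h1.1.trans_le h2.2
    exact_mod_cast this
  have a2 : k < j + 1 := by
    have : (k : ℝ) < j + 1 := h2.1.trans_le h1.2
    exact_mod_cast this
  omega

lemma ortho : Orthonormal ℂ v := by
  classical
  rw [orthonormal_iff_ite]
  rintro ⟨j, n⟩ ⟨k, m⟩
  rw [inner_v]
  have h1 : ∫ x in Ioc (j : ℝ) (j + 1), ex (-n) x * v (k, m) x =
      ∫ x in Ioc (j : ℝ) (j + 1), if j = k then ex (m - n) x else 0 := by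
    refine integral_congr_ae ?_
    have := ae_restrict_of_ae (s := Ioc (j : ℝ) (j + 1)) (v_ae (k, m))
    filter_upwards [this, ae_restrict_mem measurableSet_Ioc] with x hx hxj
    rw [hx, fe]
    split_ifs with h
    · subst h
      rw [indicator_of_mem hxj, ex_mul]
      congr 1
      ring
    · rw [indicator_of_notMem, mul_zero]
      exact fun hk => h (Ioc_disj hxj hk)
  simp only
  rw [h1]
  by_cases h : j = k
  · subst h
    simp only [if_true]
    rw [int_ex]
    by_cases h2 : n = m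
    · subst h2; simp
    · rw [if_neg (by omega), if_neg (by simpa using h2)]
  · simp [h]

lemma coeff_eq (j : ℤ) (g : ℝ → ℂ) (n : ℤ) :
    fourierCoeffOn (show (j : ℝ) < j + 1 by linarith) g n =
      ∫ x in Ioc (j : ℝ) (j + 1), ex (-n) x * g x := by
  rw [fourierCoeffOn_eq_integral, intervalIntegral.integral_of_le (by linarith)]
  have e1 : (j : ℝ) + 1 - j = 1 := by ring
  have e2 : (1 / ((j : ℝ) + 1 - j)) = 1 := by rw [e1]; norm_num
  rw [e2, one_smul]
  refine integral_congr_ae (Eventually.of_forall fun x => ?_)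
  simp only [fourier_coe_apply, smul_eq_mul]
  rw [e1, ex]
  congr 2
  push_cast
  ring

/-- A square integrable function on an interval of length one with vanishing coefficients is zero. -/
lemma zero_of_coeff (j : ℤ) (h : ℝ → ℂ) (hL : MemLp h 2 (volume.restrict (Ioc (j : ℝ) (j + 1))))
    (h0 : ∀ n : ℤ, ∫ x in Ioc (j : ℝ) (j + 1), ex (-n) x * h x = 0) :
    ∀ᵐ x ∂(volume.restrict (Ioc (j : ℝ) (j + 1))), h x = 0 := by
  have h1 := hasSum_sq_fourierCoeffOn (show (j : ℝ) < j + 1 by linarith) hL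
  simp only [coeff_eq, h0, norm_zero] at h1
  have h2 := h1.unique (a₂ := 0) (by
    have h3 : (fun _ : ℤ => (0 : ℝ) ^ 2) = fun _ => 0 := by funext; norm_num
    rw [h3]
    exact hasSum_zero)
  have e1 : ((j : ℝ) + 1 - j)⁻¹ = 1 := by rw [show (j : ℝ) + 1 - j = 1 by ring]; norm_num
  rw [e1, one_smul, intervalIntegral.integral_of_le (by linarith)] at h2
  have h3 : Integrable (fun x => ‖h x‖ ^ 2) (volume.restrict (Ioc (j : ℝ) (j + 1))) :=
    hL.integrable_norm_pow (by norm_num)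
  rw [integral_eq_zero_iff_of_nonneg (fun x => by positivity) h3] at h2
  filter_upwards [h2] with x hx
  simpa using hx

lemma total : (Submodule.span ℂ (Set.range v))ᗮ = ⊥ := by
  rw [Submodule.eq_bot_iff]
  intro g hg
  have h0 : ∀ p, ⟪v p, g⟫_ℂ = 0 := fun p =>
    (Submodule.mem_orthogonal _ _).1 hg _ (Submodule.subset_span ⟨p, rfl⟩)
  have h1 : ∀ j : ℤ, ∀ᵐ x ∂(volume.restrict (Ioc (j : ℝ) (j + 1))), g x = 0 := by
    intro j
    refine zero_of_coeff j g ((Lp.memLp g).restrict _) fun n => ?_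
    rw [← inner_v (j, n) g]
    exact h0 _
  rw [Lp.eq_zero_iff_ae_eq_zero]
  have h2 := ae_all_iff.2 fun j : ℤ => (ae_restrict_iff' measurableSet_Ioc).1 (h1 j)
  filter_upwards [h2] with x hx
  refine hx (⌈x⌉ - 1) ⟨?_, ?_⟩
  · push_cast
    linarith [Int.ceil_lt_add_one x]
  · push_cast
    linarith [Int.le_ceil x]

/-- The Hilbert basis. -/
noncomputable def b : HilbertBasis (ℤ × ℤ) ℂ L2 := HilbertBasis.mkOfOrthogonalEqBot ortho total

lemma b_apply (p : ℤ × ℤ) : b p = v p := by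
  rw [b, HilbertBasis.coe_mkOfOrthogonalEqBot]

/-- The Hilbert basis with its indices swapped. -/
noncomputable def b' : HilbertBasis (ℤ × ℤ) ℂ L2 :=
  HilbertBasis.mkOfOrthogonalEqBot (v := fun p => v p.swap) (ortho.comp _ Prod.swap_injective) (by
    have : Set.range (fun p : ℤ × ℤ => v p.swap) = Set.range v := by
      ext x
      constructor
      · rintro ⟨p, rfl⟩; exact ⟨p.swap, rfl⟩
      · rintro ⟨p, rfl⟩; exact ⟨p.swap, by simp⟩
    rw [this]
    exact total)

lemma b'_apply (p : ℤ × ℤ) : b' p = v p.swap := by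
  rw [b', HilbertBasis.coe_mkOfOrthogonalEqBot]

/-- The unitary operator. -/
noncomputable def U : L2 ≃ₗᵢ[ℂ] L2 := b.repr.trans b'.repr.symm

lemma U_v (p : ℤ × ℤ) : U (v p) = v p.swap := by
  classical
  rw [← b_apply, U, LinearIsometryEquiv.trans_apply, HilbertBasis.repr_self,
    HilbertBasis.repr_symm_single, b'_apply]

lemma inner_U (p : ℤ × ℤ) (f : L2) : ⟪v p, U f⟫_ℂ = ⟪v p.swap, f⟫_ℂ := by
  have : v p = U (v p.swap) := by rw [U_v]; simp
  rw [this, LinearIsometryEquiv.inner_map_map]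

lemma U_U (f : L2) : U (U f) = f := by
  apply b.repr.injective
  refine lp.ext (funext fun p => ?_)
  rw [HilbertBasis.repr_apply_apply, HilbertBasis.repr_apply_apply, b_apply, inner_U, inner_U]
  simp

lemma coeff_sum (f : L2) (hf : Integrable f) (m : ℤ) :
    Summable (fun j : ℤ => ‖⟪v (j, m), f⟫_ℂ‖) ∧ ∑' j : ℤ, ‖⟪v (j, m), f⟫_ℂ‖ ≤ ∫ x, ‖f x‖ := by
  have h1 : HasSum (fun j : ℤ => ∫ x in Ioc (j : ℝ) (j + 1), ‖f x‖) (∫ x, ‖f x‖) := by
    have := hasSum_integral_iUnion (μ := volume) (f := fun x => ‖f x‖)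
      (s := fun j : ℤ => Ioc (j : ℝ) (j + 1)) (fun j => measurableSet_Ioc)
      (pairwise_disjoint_Ioc_intCast ℝ) (by
        rw [iUnion_Ioc_intCast]
        exact hf.norm.integrableOn)
    rwa [iUnion_Ioc_intCast, setIntegral_univ] at this
  have h2 : ∀ j : ℤ, ‖⟪v (j, m), f⟫_ℂ‖ ≤ ∫ x in Ioc (j : ℝ) (j + 1), ‖f x‖ := by
    intro j
    rw [inner_v]
    refine (norm_integral_le_integral_norm _).trans (le_of_eq ?_)
    congr 1
    funext x
    rw [norm_mul, norm_ex, one_mul]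
  have h3 : Summable (fun j : ℤ => ‖⟪v (j, m), f⟫_ℂ‖) :=
    Summable.of_nonneg_of_le (fun _ => norm_nonneg _) h2 h1.summable
  exact ⟨h3, (h3.tsum_le_tsum h2 h1.summable).trans_eq h1.tsum_eq⟩

lemma U_bound (f : L2) (hf : Integrable f) (m : ℤ) :
    ∀ᵐ y ∂(volume.restrict (Ioc (m : ℝ) (m + 1))), ‖U f y‖ ≤ ∫ x, ‖f x‖ := by
  obtain ⟨hs, hle⟩ := coeff_sum f hf m
  set c : ℤ → ℂ := fun j => ⟪v (j, m), f⟫_ℂ with hc
  set s : ℝ → ℂ := fun y => ∑' j : ℤ, c j * ex j y with hsd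
  have hb : ∀ (j : ℤ) (y : ℝ), ‖c j * ex j y‖ ≤ ‖c j‖ := fun j y => by
    rw [norm_mul, norm_ex, mul_one]
  have hscont : Continuous s :=
    continuous_tsum (fun j => continuous_const.mul (ex_cont j)) hs hb
  have hsb : ∀ y, ‖s y‖ ≤ ∫ x, ‖f x‖ := fun y =>
    (tsum_of_norm_bounded hs.hasSum fun j => hb j y).trans hle
  have hsL : MemLp s 2 (volume.restrict (Ioc (m : ℝ) (m + 1))) :=
    MemLp.of_bound hscont.aestronglyMeasurable _ (Eventually.of_forall hsb)
  have hcoef : ∀ n : ℤ, ∫ x in Ioc (m : ℝ) (m + 1), ex (-n) x * s x = c n := by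
    intro n
    have h1 : HasSum (fun j : ℤ => ∫ x in Ioc (m : ℝ) (m + 1), ex (-n) x * (c j * ex j x))
        (∫ x in Ioc (m : ℝ) (m + 1), ∑' j : ℤ, ex (-n) x * (c j * ex j x)) := by
      refine hasSum_integral_of_summable_integral_norm (fun j => ?_) ?_
      · refine (MemLp.of_bound (p := 1) ?_ ‖c j‖ (Eventually.of_forall fun x => ?_)).integrable
          le_rfl
        · exact ((ex_cont _).mul (continuous_const.mul (ex_cont j))).aestronglyMeasurable
        · rw [norm_mul, norm_ex, one_mul]; exact hb j x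
      · have : ∀ j : ℤ, ∫ x in Ioc (m : ℝ) (m + 1), ‖ex (-n) x * (c j * ex j x)‖ = ‖c j‖ := by
          intro j
          simp only [norm_mul, norm_ex, one_mul, mul_one]
          simp
        simp only [this]
        exact hs
    have h2 : ∀ j : ℤ, ∫ x in Ioc (m : ℝ) (m + 1), ex (-n) x * (c j * ex j x) =
        if j = n then c n else 0 := by
      intro j
      have : ∀ x, ex (-n) x * (c j * ex j x) = c j * ex (j - n) x := fun x => by
        rw [mul_left_comm, ex_mul]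
        congr 2
        ring
      simp only [this]
      rw [integral_const_mul, int_ex]
      by_cases h : j = n
      · subst h; simp
      · rw [if_neg (by omega), if_neg h, mul_zero]
    have h3 : ∀ x, ex (-n) x * s x = ∑' j : ℤ, ex (-n) x * (c j * ex j x) := fun x => by
      rw [tsum_mul_left]
    simp only [h3]
    simp only [h2] at h1
    exact h1.unique (hasSum_ite_eq n (c n))
  have hUL : MemLp (U f) 2 (volume.restrict (Ioc (m : ℝ) (m + 1))) := (Lp.memLp (U f)).restrict _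
  have h := zero_of_coeff m (fun y => U f y - s y) (hUL.sub hsL) fun n => by
    have i1 : Integrable (fun x => ex (-n) x * U f x) (volume.restrict (Ioc (m : ℝ) (m + 1))) := by
      refine (hUL.integrable (by norm_num)).bdd_mul (c := 1) (ex_cont _).aestronglyMeasurable
        (Eventually.of_forall fun x => (norm_ex _ x).le)
    have i2 : Integrable (fun x => ex (-n) x * s x) (volume.restrict (Ioc (m : ℝ) (m + 1))) := by
      refine (hsL.integrable (by norm_num)).bdd_mul (c := 1) (ex_cont _).aestronglyMeasurable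
        (Eventually.of_forall fun x => (norm_ex _ x).le)
    simp only [mul_sub]
    rw [integral_sub i1 i2, hcoef n]
    have : ∫ x in Ioc (m : ℝ) (m + 1), ex (-n) x * U f x = c n := by
      rw [← inner_v (m, n) (U f), inner_U]
      rfl
    rw [this, sub_self]
  filter_upwards [h] with y hy
  rw [sub_eq_zero.1 hy]
  exact hsb y

lemma U_one_top (f : L2) : eLpNorm (U f) ∞ volume ≤ eLpNorm f 1 volume := by
  by_cases hf : Integrable f
  · rw [eLpNorm_one_eq_lintegral_enorm, ← ofReal_integral_norm_eq_lintegral_enorm hf,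
      eLpNorm_exponent_top]
    refine essSup_le_of_ae_le _ ?_
    have h2 := ae_all_iff.2 fun m : ℤ => (ae_restrict_iff' measurableSet_Ioc).1 (U_bound f hf m)
    filter_upwards [h2] with y hy
    have h3 := hy (⌈y⌉ - 1) ⟨by push_cast; linarith [Int.ceil_lt_add_one y],
      by push_cast; linarith [Int.le_ceil y]⟩
    rw [← ofReal_norm]
    exact ENNReal.ofReal_le_ofReal h3
  · have : eLpNorm f 1 volume = ∞ := by
      by_contra hne
      exact hf (memLp_one_iff_integrable.1 ⟨Lp.aestronglyMeasurable f, lt_top_iff_ne_top.2 hne⟩)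
    rw [this]
    exact le_top

/-- The special Hadamard operators. -/
noncomputable def A (k : ℝ) : Op :=
  ((Real.sqrt k : ℝ) : ℂ) • (U.toContinuousLinearEquiv : L2 →L[ℂ] L2)

lemma A_apply (k : ℝ) (f : L2) : A k f = ((Real.sqrt k : ℝ) : ℂ) • U f := rfl

lemma A_adj (k : ℝ) : IsAdj (A k) (A k) := by
  intro x y
  rw [ip, ip, ap, ap, A_apply, A_apply, inner_smul_left, inner_smul_right, Complex.conj_ofReal]
  congr 1
  rw [← U.inner_map_map x (U y), U_U]

lemma A_A (k : ℝ) (hk : 0 ≤ k) (f : L2) : A k (A k f) = (k : ℂ) • f := by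
  rw [A_apply, A_apply, map_smul, U_U, smul_smul, ← Complex.ofReal_mul, Real.mul_self_sqrt hk]

lemma A_bound (k : ℝ) (hk1 : k ≤ 1) (f : L2) :
    nrm ∞ (A k f) ≤ nrm 1 f := by
  rw [A_apply, nrm, nrm]
  have h1 : eLpNorm (((Real.sqrt k : ℝ) : ℂ) • U f : L2) ∞ volume =
      ‖((Real.sqrt k : ℝ) : ℂ)‖ₑ * eLpNorm (U f) ∞ volume := by
    rw [← eLpNorm_const_smul]
    exact eLpNorm_congr_ae (Lp.coeFn_smul _ _)
  rw [h1]
  have h2 : ‖((Real.sqrt k : ℝ) : ℂ)‖ₑ ≤ 1 := by
    rw [← ofReal_norm, Complex.norm_real, Real.norm_of_nonneg (Real.sqrt_nonneg _)]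
    rw [ENNReal.ofReal_le_one]
    exact Real.sqrt_le_one.2 hk1
  calc _ ≤ 1 * eLpNorm (U f) ∞ volume := by gcongr
    _ = _ := one_mul _
    _ ≤ _ := U_one_top f

lemma A_special (k : ℝ) (hk : 0 < k) (hk1 : k ≤ 1) : IsSpecialHadamard k (A k) where
  one_top := A_bound k hk1
  adjoint := ⟨A k, A_adj k, A_A k hk.le, A_A k hk.le, 1, fun f => by
    rw [ENNReal.coe_one, one_mul]
    exact A_bound k hk1 f⟩

lemma v_norm (q : ℝ≥0∞) (hq : q ≠ 0) (hq' : q ≠ ∞) : eLpNorm (v (0, 0)) q volume = 1 := by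
  rw [eLpNorm_congr_ae (v_ae (0, 0))]
  have : fe (0, 0) = (Ioc (0 : ℝ) 1).indicator fun _ => (1 : ℂ) := by
    funext x
    simp [fe, indicator, ex]
  rw [this, eLpNorm_indicator_const measurableSet_Ioc hq hq']
  simp

lemma ratio_eq (k : ℝ) (hk : 0 < k) (p : ℝ) (hp : 0 < p) : ratio (A k) p (v (0, 0)) = 1 := by
  have hsq : 0 < Real.sqrt k := Real.sqrt_pos.2 hk
  have h1 : A k (v (0, 0)) = ((Real.sqrt k : ℝ) : ℂ) • v (0, 0) := by
    rw [A_apply, U_v]; rfl
  have hp1 : ENNReal.ofReal p ≠ 0 := by simpa using hp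
  have h2 : ∀ q : ℝ≥0∞, q ≠ 0 → q ≠ ∞ →
      nrm q (((Real.sqrt k : ℝ) : ℂ) • v (0, 0)) = ENNReal.ofReal (Real.sqrt k) := by
    intro q hq hq'
    rw [nrm, eLpNorm_congr_ae (Lp.coeFn_smul _ _), eLpNorm_const_smul, v_norm q hq hq', mul_one,
      ← ofReal_norm, Complex.norm_real, Real.norm_of_nonneg hsq.le]
  have h3 : ∀ q : ℝ≥0∞, q ≠ 0 → q ≠ ∞ → nrm q (v (0, 0)) = 1 := v_norm
  rw [ratio, ap, h1, h2 _ hp1 ENNReal.ofReal_ne_top, h3 _ hp1 ENNReal.ofReal_ne_top,
    h2 2 (by norm_num) (by norm_num), h3 2 (by norm_num) (by norm_num),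
    ENNReal.toReal_ofReal hsq.le]
  simp only [ENNReal.toReal_one, one_mul]
  exact div_self hsq.ne'

lemma v_ne : v (0, 0) ≠ 0 := ortho.ne_zero _

lemma A_mem (k : ℝ) (q : ℝ≥0∞) : InLp q (A k (v (0, 0))) := by
  have h1 : A k (v (0, 0)) = ((Real.sqrt k : ℝ) : ℂ) • v (0, 0) := by
    rw [A_apply, U_v]; rfl
  rw [h1, InLp]
  refine MemLp.ae_eq (Lp.coeFn_smul _ _).symm ?_
  exact (MemLp.ae_eq (v_ae (0, 0)).symm (fe_mem (0, 0) q)).const_smul _

/-- **For each `k ≤ 1` there is a special `k`-Hadamard operator on `ℝ` without a regular choice of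
constants.** For this operator and one function `f` the ratio `F_(p,2)(f)` equals one for all `p`. -/
theorem result (k : ℝ) (hk : 0 < k) (hk1 : k ≤ 1) :
    ∃ A : Op, IsSpecialHadamard k A ∧
      (∃ f : L2, f ≠ 0 ∧ ∀ p : ℝ, 1 ≤ p → InLp (ENNReal.ofReal p) f ∧
        InLp (ENNReal.ofReal p) (ap A f) ∧ ratio A p f = 1) ∧
      ¬ ∃ (σ : ℝ) (C : ℝ → ℝ), RegularChoice A σ C := by
  have hr : ∀ p : ℝ, 1 ≤ p → InLp (ENNReal.ofReal p) (v (0, 0)) ∧
      InLp (ENNReal.ofReal p) (A k (v (0, 0))) ∧ ratio (A k) p (v (0, 0)) = 1 :=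
    fun p hp => ⟨MemLp.ae_eq (v_ae (0, 0)).symm (fe_mem (0, 0) _), A_mem k _,
      ratio_eq k hk p (by linarith)⟩
  refine ⟨A k, A_special k hk hk1, ⟨v (0, 0), v_ne, hr⟩, ?_⟩
  rintro ⟨σ, C, hσ, hσ1, hC, -, hlim, -, hanti⟩
  have hle : ∀ p ∈ Ioo (2 - σ) 2, C p ≤ 1 := by
    intro p hp
    obtain ⟨h1, h2, h3⟩ := hr p (by linarith [hp.1])
    have := (hC p ⟨hp.1, hp.2.le⟩).2 _ v_ne h1 h2
    rwa [h3] at this
  have hp : (2 - σ * (2 / 3)) ∈ Ioo (2 - σ) 2 := ⟨by linarith, by linarith⟩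
  have hq : (2 - σ / 3) ∈ Ioo (2 - σ) 2 := ⟨by linarith, by linarith⟩
  have h1 : C (2 - σ / 3) < C (2 - σ * (2 / 3)) := hanti hp hq (by linarith)
  have h2 : 1 ≤ C (2 - σ / 3) := by
    refine le_of_tendsto hlim ?_
    have : Ioo (2 - σ / 3) 2 ∈ 𝓝[<] (2 : ℝ) := Ioo_mem_nhdsLT (by linarith)
    filter_upwards [this] with r hr
    exact (hanti hq ⟨by linarith [hr.1], hr.2⟩ hr.1).le
  have h3 := hle _ hp
  linarith

end Pool.Agent.Results.MP_977787_an.NoRegularChoice
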